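import Pool.Agent.H25.PL0

namespace Pool.Agent.Results.MP_007c2d_nt.NonsquareNorm

open Pool.Agent.H25.PL0

lemma no_ten (v : ℕ) : ∀ a b : ℤ, (b ^ 2 - a * b - a ^ 2).natAbs = v ^ 2 * 10 → v = 0 := by
  induction v using Nat.strong_induction_on with
  | _ v ih =>
    intro a b h
    have h' : |b ^ 2 - a * b - a ^ 2| = (v : ℤ) ^ 2 * 10 := by
      rw [← Int.natCast_natAbs, h]; push_cast; ring
    have hev : (2 : ℤ) ∣ b ^ 2 - a * b - a ^ 2 := by
      rw [← dvd_abs, h']; exact ⟨(v : ℤ) ^ 2 * 5, by ring⟩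
    obtain ⟨w, hw⟩ := hev
    rcases Int.even_or_odd' a with ⟨x, rfl | rfl⟩ <;> rcases Int.even_or_odd' b with ⟨y, rfl | rfl⟩
    · have e : (2 * y) ^ 2 - 2 * x * (2 * y) - (2 * x) ^ 2 = 4 * (y ^ 2 - x * y - x ^ 2) := by ring
      rw [e, Int.natAbs_mul] at h
      have h4 : (4 : ℤ).natAbs = 4 := rfl
      rw [h4] at h
      rcases Nat.even_or_odd' v with ⟨u, rfl | rfl⟩
      · by_contra hu
        have := ih u (by omega) x y (by nlinarith)
        omega
      · have : (2 * u + 1) ^ 2 * 10 = 4 * (10 * u ^ 2 + 10 * u + 2) + 2 := by ring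
        omega
    · have : (2 * y + 1) ^ 2 - 2 * x * (2 * y + 1) - (2 * x) ^ 2 =
          2 * (2 * y ^ 2 + 2 * y - x * (2 * y + 1) - 2 * x ^ 2) + 1 := by ring
      omega
    · have : (2 * y) ^ 2 - (2 * x + 1) * (2 * y) - (2 * x + 1) ^ 2 =
          2 * (2 * y ^ 2 - (2 * x + 1) * y - 2 * x ^ 2 - 2 * x) - 1 := by ring
      omega
    · have : (2 * y + 1) ^ 2 - (2 * x + 1) * (2 * y + 1) - (2 * x + 1) ^ 2 =
          2 * (2 * y ^ 2 + y - 2 * x * y - 3 * x - 2 * x ^ 2) - 1 := by ring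
      omega

lemma exN (u : ℕ) (hu : Squarefree u) (h1 : u ≠ 1) (h10 : u ≠ 10) :
    ∃ N : ℕ, N % 40 = 13 ∧ jacobiSym u N = -1 := by
  have hu0 : u ≠ 0 := hu.ne_zero
  by_cases h : ∃ q, q.Prime ∧ q ∣ u ∧ q ≠ 2 ∧ q ≠ 5
  · obtain ⟨q, hq, ⟨m, rfl⟩, hq2, hq5⟩ := h
    haveI := Fact.mk hq
    obtain ⟨p0, hp0, hp0p, hp0m⟩ := Nat.forall_exists_prime_gt_and_modEq (q * m)
      (q := 40) (a := 13) (by norm_num) (by norm_num)
    have hp40 : p0 % 40 = 13 := hp0m
    have hcop : Nat.Coprime q m := Nat.coprime_of_squarefree_mul hu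
    have hne : jacobiSym ((q * m : ℕ) : ℤ) p0 ≠ 0 := by
      rw [Ne, jacobiSym.eq_zero_iff]
      rintro ⟨-, hg⟩
      apply hg
      rw [Int.gcd_natCast_natCast]
      exact (Nat.coprime_of_lt_prime hu0 hp0 hp0p).symm
    rcases jacobiSym.trichotomy ((q * m : ℕ) : ℤ) p0 with h0 | h0 | h0
    · exact absurd h0 hne
    · obtain ⟨r, hr⟩ := FiniteField.exists_nonsquare (F := ZMod q)
        (by rw [ZMod.ringChar_zmod_n]; exact hq2)
      have hJr : jacobiSym (r.val : ℤ) q = -1 := by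
        rw [← jacobiSym.legendreSym.to_jacobiSym, legendreSym.eq_neg_one_iff]; simpa using hr
      have hc : Nat.Coprime (40 * m) q := by
        apply Nat.Coprime.mul_left _ hcop.symm
        rw [show 40 = 2 ^ 3 * 5 by norm_num]
        apply Nat.Coprime.mul_left
        · exact Nat.Coprime.pow_left _ ((Nat.coprime_primes Nat.prime_two hq).2 hq2.symm)
        · exact (Nat.coprime_primes Nat.prime_five hq).2 hq5.symm
      obtain ⟨N, hN1, hN2⟩ := Nat.chineseRemainder hc p0 (r.val * p0)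
      have hN40 : N % 40 = 13 := by
        have := hN1.of_mul_right m
        unfold Nat.ModEq at this; omega
      have hqo : Odd q := hq.odd_of_ne_two hq2
      have oN : Odd N := Nat.odd_iff.2 (by omega)
      have op : Odd p0 := Nat.odd_iff.2 (by omega)
      refine ⟨N, hN40, ?_⟩
      have a1 : jacobiSym (m : ℤ) N = jacobiSym (m : ℤ) p0 := by
        apply jacobiSym.mod_right' m oN |>.trans
        rw [jacobiSym.mod_right' m op]
        have : N % (4 * m) = p0 % (4 * m) := hN1.of_dvd ⟨10, by ring⟩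
        rw [this]
      have a2 : jacobiSym (q : ℤ) N = - jacobiSym (q : ℤ) p0 := by
        rw [jacobiSym.quadratic_reciprocity_one_mod_four' hqo (by omega : N % 4 = 1),
          jacobiSym.quadratic_reciprocity_one_mod_four' hqo (by omega : p0 % 4 = 1),
          jacobiSym.mod_left' (a₂ := (r.val : ℤ) * p0) (by exact_mod_cast Int.natCast_modEq_iff.2 hN2),
          jacobiSym.mul_left, hJr]
        ring
      push_cast at h0 ⊢
      rw [jacobiSym.mul_left] at h0 ⊢
      rw [a1, a2]; linarith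
    · exact ⟨p0, hp40, h0⟩
  · push Not at h
    have hd : u ∣ 10 := by
      rw [← Nat.prod_primeFactors_of_squarefree hu,
        show 10 = ∏ q ∈ ({2, 5} : Finset ℕ), q by decide]
      apply Finset.prod_dvd_prod_of_subset
      intro q hq
      have := h q (Nat.prime_of_mem_primeFactors hq) (Nat.dvd_of_mem_primeFactors hq)
      simp only [Finset.mem_insert, Finset.mem_singleton]; tauto
    have := Nat.le_of_dvd (by norm_num) hd
    refine ⟨13, rfl, ?_⟩
    interval_cases u <;> first | omega | norm_num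

theorem result (a b : ℤ) (hD : ¬ IsSquare (b ^ 2 - a * b - a ^ 2).natAbs) :
    {p : ℕ | p.Prime ∧ p ≠ 2 ∧
      (cnt a b p 1 : ℤ) - cnt a b p (-1) - cnt a b p 0 = 0}.Infinite := by
  set D := b ^ 2 - a * b - a ^ 2 with hDdef
  obtain ⟨u, v, huv, hu⟩ := Nat.sq_mul_squarefree D.natAbs
  have hD0 : D.natAbs ≠ 0 := fun h => hD (by rw [h]; exact ⟨0, rfl⟩)
  have hv0 : v ≠ 0 := fun h => hD0 (by rw [← huv, h]; simp)
  obtain ⟨N, hN, hJ⟩ := exN u hu (fun h => hD ⟨v, by rw [← huv, h]; ring⟩)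
    (fun h => hv0 (no_ten v a b (by rw [← hDdef, ← huv, h])))
  have hcu : Nat.Coprime N (40 * u) := by
    apply Nat.Coprime.mul_right
    · rw [Nat.Coprime, Nat.gcd_comm, Nat.gcd_rec, hN]; norm_num
    · by_contra hc
      have : jacobiSym u N = 0 := by
        rw [jacobiSym.eq_zero_iff]
        exact ⟨by omega, by rw [Int.gcd_natCast_natCast]; exact fun h => hc (Nat.Coprime.symm h)⟩
      omega
  apply Set.infinite_of_forall_exists_gt
  intro n
  obtain ⟨p, hp, hpp, hpm⟩ := Nat.forall_exists_prime_gt_and_modEq (n + D.natAbs)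
    (q := 40 * u) (a := N) (mul_ne_zero (by norm_num) hu.ne_zero) hcu
  have h40 : p % 40 = 13 := by
    have := hpm.of_mul_right u
    unfold Nat.ModEq at this; omega
  have op : Odd p := Nat.odd_iff.2 (by omega)
  have oN : Odd N := Nat.odd_iff.2 (by omega)
  refine ⟨p, ⟨hpp, by omega, main a b p hpp h40 ?_⟩, by omega⟩
  have a1 : jacobiSym (u : ℤ) p = -1 := by
    rw [← hJ, jacobiSym.mod_right' u op, jacobiSym.mod_right' u oN]
    have : p % (4 * u) = N % (4 * u) := hpm.of_dvd ⟨10, by ring⟩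
    rw [this]
  have hvle : v ≤ D.natAbs := Nat.le_of_dvd (by omega) ⟨v * u, by rw [← huv]; ring⟩
  have a2 : jacobiSym ((v : ℤ) ^ 2) p = 1 := by
    apply jacobiSym.sq_one'
    rw [Int.gcd_natCast_natCast]
    exact (Nat.coprime_of_lt_prime hv0 (by omega) hpp).symm
  have a3 : jacobiSym (D.natAbs : ℤ) p = -1 := by
    rw [← huv]; push_cast; rw [jacobiSym.mul_left, a1, a2]; ring
  have hm1 : jacobiSym (-1) p = 1 := by
    rw [jacobiSym.at_neg_one op, ZMod.χ₄_nat_one_mod_four (by omega)]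
  rw [← hDdef]
  rcases Int.natAbs_eq D with h | h
  · rw [h]; exact a3
  · rw [h, neg_eq_neg_one_mul, jacobiSym.mul_left, hm1, a3]; ring

end Pool.Agent.Results.MP_007c2d_nt.NonsquareNorm
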